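import Pool.Agent.V11133.BEI.GTor
set_option autoImplicit false

/-!
The limit formula for the regulators on the curves
`λ g ∏_i (y - φ_i(x)) ^ (w_i + 1) ∏_k (x - ρ_k) ^ ν_k = 1`.
-/

namespace Pool.Agent.V11133.BEI

open Pool.Agent.Y797.GC

open Pool.Agent.TH826.MK

open Polynomial (C X)

section main

variable {K : Type*} [Field K] {r p : ℕ} {A : Arr K r p}

theorem reg_cl {lam : K} (Γ : Torus (A.Open lam) 1) (n : Fin (r + 1) → Fin p → ℚ) :
    Γ.reg (A.cl lam n) = ∑ i, ∑ k, (n i k : ℝ) * Γ.reg (symb ![A.uy lam i, A.ux lam k]) := by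
  unfold Arr.cl
  rw [map_sum]
  refine Finset.sum_congr rfl fun i _ => ?_
  rw [map_sum]
  refine Finset.sum_congr rfl fun k _ => ?_
  rw [map_smul, Rat.smul_def]

/-- Loops at all the points `(ρ_k, φ_i(ρ_k))` at once, and the regulators of all combinations. -/
theorem exists_loops (σ : K →+* ℂ) (hphi : Function.Injective A.phi)
    (hrho : Function.Injective A.rho)
    (hg : ∀ i k, (A.g.eval (A.phi i)).eval (A.rho k) ≠ 0) {ε : ℝ} (hε : 0 < ε) :
    ∃ Λ : ℝ, 1 < Λ ∧ ∀ lam : K, Λ ≤ ‖σ lam‖ →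
      ∃ Γ : Fin (r + 1) → Fin p → Torus (A.Open lam) 1,
      (∀ i k θ x, (Γ i k).e θ (A.toO lam (C (C x))) = σ x) ∧
      ∀ (n : Fin (r + 1) → Fin p → ℚ) i k,
        |(Γ i k).reg (A.cl lam n) / (-Real.log ‖σ lam‖) - 2 * Real.pi * (n i k : ℝ)| ≤
          ε * ∑ j, ∑ l, |(n j l : ℝ)| := by
  classical
  choose Λ hΛ1 hΛ using fun (i : Fin (r + 1)) (k : Fin p) =>
    exists_loop (A := A) σ hphi hrho hg i k ε hε
  set C0 : ℝ := ∑ i, ∑ k, |Λ i k| + 2 with hC0
  have hsum : 0 ≤ ∑ i, ∑ k, |Λ i k| :=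
    Finset.sum_nonneg fun i _ => Finset.sum_nonneg fun k _ => abs_nonneg _
  have hΛC : ∀ i k, Λ i k ≤ C0 := by
    intro i k
    have h1 : |Λ i k| ≤ ∑ k, |Λ i k| :=
      Finset.single_le_sum (f := fun k => |Λ i k|) (fun k _ => abs_nonneg _) (Finset.mem_univ k)
    have h2 : ∑ k, |Λ i k| ≤ ∑ i, ∑ k, |Λ i k| :=
      Finset.single_le_sum (f := fun i => ∑ k, |Λ i k|)
        (fun i _ => Finset.sum_nonneg fun k _ => abs_nonneg _) (Finset.mem_univ i)
    have h3 := le_abs_self (Λ i k)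
    linarith
  refine ⟨C0, by linarith, fun lam hlam => ?_⟩
  choose Γ hΓ1 hΓ2 using fun i k => hΛ i k lam ((hΛC i k).trans hlam)
  refine ⟨Γ, hΓ1, fun n i k => ?_⟩
  set s : ℝ := -Real.log ‖σ lam‖ with hs
  have e1 : 2 * Real.pi * (n i k : ℝ) = ∑ j, ∑ l, (n j l : ℝ) *
      (if j = i ∧ l = k then 2 * Real.pi else 0) := by
    rw [Finset.sum_eq_single i, Finset.sum_eq_single k]
    · rw [if_pos ⟨rfl, rfl⟩, mul_comm]
    · intro l _ hl
      rw [if_neg fun h => hl h.2, mul_zero]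
    · intro h
      exact absurd (Finset.mem_univ _) h
    · intro j _ hj
      refine Finset.sum_eq_zero fun l _ => ?_
      rw [if_neg fun h => hj h.1, mul_zero]
    · intro h
      exact absurd (Finset.mem_univ _) h
  have e2 : (Γ i k).reg (A.cl lam n) / s - 2 * Real.pi * (n i k : ℝ) =
      ∑ j, ∑ l, (n j l : ℝ) * ((Γ i k).reg (symb ![A.uy lam j, A.ux lam l]) / s -
        (if j = i ∧ l = k then 2 * Real.pi else 0)) := by
    rw [e1, reg_cl, Finset.sum_div, ← Finset.sum_sub_distrib]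
    refine Finset.sum_congr rfl fun j _ => ?_
    rw [Finset.sum_div, ← Finset.sum_sub_distrib]
    refine Finset.sum_congr rfl fun l _ => ?_
    ring
  rw [e2]
  calc |∑ j, ∑ l, (n j l : ℝ) * ((Γ i k).reg (symb ![A.uy lam j, A.ux lam l]) / s -
        (if j = i ∧ l = k then 2 * Real.pi else 0))|
      ≤ ∑ j, ∑ l, |(n j l : ℝ)| * ε := by
        refine (Finset.abs_sum_le_sum_abs _ _).trans (Finset.sum_le_sum fun j _ => ?_)
        refine (Finset.abs_sum_le_sum_abs _ _).trans (Finset.sum_le_sum fun l _ => ?_)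
        rw [abs_mul]
        exact mul_le_mul_of_nonneg_left (hΓ2 i k j l) (abs_nonneg _)
    _ = ε * ∑ j, ∑ l, |(n j l : ℝ)| := by
        simp only [Finset.mul_sum, mul_comm]

/-- The determinants of the regulators. -/
theorem det_limit (σ : K →+* ℂ) (hphi : Function.Injective A.phi)
    (hrho : Function.Injective A.rho)
    (hg : ∀ i k, (A.g.eval (A.phi i)).eval (A.rho k) ≠ 0) {b : ℕ}
    (B : Fin b → Fin (r + 1) → Fin p → ℚ) (e : Fin b → Fin (r + 1) × Fin p)
    {ε : ℝ} (hε : 0 < ε) :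
    ∃ Λ : ℝ, 1 < Λ ∧ ∀ lam : K, Λ ≤ ‖σ lam‖ →
      ∃ Γ : Fin b → Torus (A.Open lam) 1,
      (∀ l θ x, (Γ l).e θ (A.toO lam (C (C x))) = σ x) ∧
      |(Matrix.of fun l m => (Γ l).reg (A.cl lam (B m))).det / (-Real.log ‖σ lam‖) ^ b -
        (2 * Real.pi) ^ b * (((Matrix.of fun l m => B m (e l).1 (e l).2).det : ℚ) : ℝ)| < ε := by
  classical
  set M0 : Matrix (Fin b) (Fin b) ℝ := Matrix.of fun l m =>
    2 * Real.pi * (B m (e l).1 (e l).2 : ℝ) with hM0
  have hM : M0.det = (2 * Real.pi) ^ b *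
      (((Matrix.of fun l m => B m (e l).1 (e l).2).det : ℚ) : ℝ) := by
    have h1 : M0 = (2 * Real.pi) • (Rat.castHom ℝ).mapMatrix
        (Matrix.of fun l m => B m (e l).1 (e l).2) := by
      ext l m
      rfl
    rw [h1, Matrix.det_smul, ← RingHom.map_det, Fintype.card_fin]
    rfl
  obtain ⟨δ, hδ, hdet⟩ := det_close M0 hε
  set S : ℝ := ∑ m : Fin b, ∑ i, ∑ k, |(B m i k : ℝ)| + 1 with hS
  have hS1 : 0 ≤ ∑ m : Fin b, ∑ i, ∑ k, |(B m i k : ℝ)| :=
    Finset.sum_nonneg fun m _ => Finset.sum_nonneg fun i _ =>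
      Finset.sum_nonneg fun k _ => abs_nonneg _
  have hS0 : 0 < S := by linarith
  have hSm : ∀ m : Fin b, ∑ i, ∑ k, |(B m i k : ℝ)| < S := by
    intro m
    have h2 : ∑ i, ∑ k, |(B m i k : ℝ)| ≤ ∑ m : Fin b, ∑ i, ∑ k, |(B m i k : ℝ)| :=
      Finset.single_le_sum (f := fun m : Fin b => ∑ i, ∑ k, |(B m i k : ℝ)|)
        (fun m _ => Finset.sum_nonneg fun i _ => Finset.sum_nonneg fun k _ => abs_nonneg _)
        (Finset.mem_univ m)
    linarith
  obtain ⟨Λ, hΛ1, hΛ⟩ := exists_loops (A := A) σ hphi hrho hg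
    (ε := δ / S) (by positivity)
  refine ⟨Λ, hΛ1, fun lam hlam => ?_⟩
  obtain ⟨Γ, hΓ1, hΓ2⟩ := hΛ lam hlam
  refine ⟨fun l => Γ (e l).1 (e l).2, fun l θ x => hΓ1 _ _ θ x, ?_⟩
  have hs : -Real.log ‖σ lam‖ ≠ 0 := by
    have : 0 < Real.log ‖σ lam‖ := Real.log_pos (by linarith)
    linarith
  set s : ℝ := -Real.log ‖σ lam‖ with hsdef
  have h1 : |(Matrix.of fun l m : Fin b =>
      (Γ (e l).1 (e l).2).reg (A.cl lam (B m)) / s).det - M0.det| < ε := by
    refine hdet _ fun l m => ?_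
    rw [hM0, Matrix.of_apply, Matrix.of_apply]
    refine (hΓ2 (B m) (e l).1 (e l).2).trans_lt ?_
    calc δ / S * ∑ i, ∑ k, |(B m i k : ℝ)| < δ / S * S :=
          mul_lt_mul_of_pos_left (hSm m) (by positivity)
      _ = δ := by field_simp
  have h2 : (Matrix.of fun l m : Fin b => (Γ (e l).1 (e l).2).reg (A.cl lam (B m))) =
      s • (Matrix.of fun l m : Fin b =>
        (Γ (e l).1 (e l).2).reg (A.cl lam (B m)) / s) := by
    ext l m
    rw [Matrix.smul_apply, Matrix.of_apply, Matrix.of_apply, smul_eq_mul]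
    field_simp
  rw [h2, Matrix.det_smul, Fintype.card_fin, mul_div_cancel_left₀ _ (pow_ne_zero _ hs), ← hM]
  exact h1

/-- A basis of the admissible coefficients which is dual to a family of the coordinates. -/
theorem exists_echelon (A : Arr K r p) : ∃ (B : Fin A.dim → Fin (r + 1) → Fin p → ℚ)
    (e : Fin A.dim → Fin (r + 1) × Fin p), A.IsBasis B ∧
    ∀ l m, B m (e l).1 (e l).2 = if l = m then 1 else 0 := by
  classical
  set B0 : Module.Basis (Fin A.dim) ℚ A.Adm := Module.finBasis ℚ A.Adm with hB0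
  set V : Matrix (Fin A.dim) (Fin (r + 1) × Fin p) ℚ := Matrix.of fun m ik =>
    (B0 m : Fin (r + 1) → Fin p → ℚ) ik.1 ik.2 with hV
  have hVl : LinearIndependent ℚ V.row := by
    have h1 : LinearIndependent ℚ fun m => (B0 m : Fin (r + 1) → Fin p → ℚ) :=
      B0.linearIndependent.map' A.Adm.subtype (Submodule.ker_subtype _)
    have h2 := h1.map' (LinearEquiv.curry ℚ ℚ (Fin (r + 1)) (Fin p)).symm.toLinearMap
      (LinearEquiv.ker _)
    exact h2
  obtain ⟨e, he⟩ := exists_minor V hVl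
  set W : Matrix (Fin A.dim) (Fin A.dim) ℚ := V.submatrix id e with hW
  have hWu : IsUnit W.det := isUnit_iff_ne_zero.2 he
  -- `W m l = B0 m (e l)`
  set Y : Fin A.dim → A.Adm := fun m => ∑ j, W⁻¹ m j • B0 j with hY
  have hYv : ∀ m i k, (Y m : Fin (r + 1) → Fin p → ℚ) i k =
      ∑ j, W⁻¹ m j * (B0 j : Fin (r + 1) → Fin p → ℚ) i k := by
    intro m i k
    rw [hY]
    simp only [Submodule.coe_sum, Submodule.coe_smul, Finset.sum_apply, Pi.smul_apply,
      smul_eq_mul]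
  have hdual : ∀ l m, (Y m : Fin (r + 1) → Fin p → ℚ) (e l).1 (e l).2 =
      if l = m then 1 else 0 := by
    intro l m
    rw [hYv]
    have h1 : ∑ j, W⁻¹ m j * (B0 j : Fin (r + 1) → Fin p → ℚ) (e l).1 (e l).2 =
        (W⁻¹ * W) m l := by
      rw [Matrix.mul_apply]
      rfl
    rw [h1, Matrix.nonsing_inv_mul W hWu, Matrix.one_apply]
    by_cases h : l = m
    · rw [if_pos h, if_pos h.symm]
    · rw [if_neg h, if_neg fun h' => h h'.symm]
  refine ⟨fun m => Y m, e, ⟨fun m => (Y m).2, ?_⟩, hdual⟩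
  rw [Fintype.linearIndependent_iff]
  intro c hc l
  have h2 := congrFun (congrFun hc (e l).1) (e l).2
  simp only [Finset.sum_apply, Pi.smul_apply, smul_eq_mul, hdual, Pi.zero_apply] at h2
  simpa using h2

end main

end Pool.Agent.V11133.BEI
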