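import Pool.Agent.V11133.BEI.Tor
set_option autoImplicit false

/-!
The limit formula for the determinants of the regulators of the bases without broken circuits.
-/

namespace Pool.Agent.V11133.BEI

open Pool.Agent.TH577.UA

open Pool.Agent.TH826.MK

open Pool.Agent.TH826.GA (cm lf al be ku coe_ku chg chg_lf al_T be_T vtx eval_vtx)

theorem det_of_tri {I : Type*} [Fintype I] [DecidableEq I] (h : I → ℕ)
    (M : Matrix I I ℝ) (h2 : ∀ i j, M i j ≠ 0 → i = j ∨ h j < h i) :
    M.det = ∏ i, M i i := by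
  rw [Matrix.det_apply, Finset.sum_eq_single 1]
  · simp
  · intro σ _ hσ
    obtain ⟨i, hi⟩ : ∃ i, M (σ i) i = 0 := by
      by_contra hcon
      push Not at hcon
      have h3 : ∀ i, σ i = i ∨ h i < h (σ i) := fun i => h2 _ _ (hcon i)
      have h4 : ∑ i, h (σ i) = ∑ i, h i := Equiv.sum_comp σ h
      obtain ⟨i0, hi0⟩ : ∃ i, σ i ≠ i := by
        by_contra hc
        push Not at hc
        exact hσ (Equiv.ext hc)
      have h5 : ∑ i, h i < ∑ i, h (σ i) := by
        refine Finset.sum_lt_sum (fun i _ => ?_) ⟨i0, Finset.mem_univ _, (h3 i0).resolve_left hi0⟩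
        rcases h3 i with e | e
        · rw [e]
        · exact e.le
      omega
    have h6 : ∏ i, M (σ i) i = 0 := Finset.prod_eq_zero (Finset.mem_univ i) hi
    rw [h6, smul_zero]
  · intro h
    exact absurd (Finset.mem_univ _) h

theorem det_close {I : Type*} [Fintype I] [DecidableEq I] (A : Matrix I I ℝ) {ε : ℝ}
    (hε : 0 < ε) : ∃ δ : ℝ, 0 < δ ∧ ∀ M : Matrix I I ℝ, (∀ i j, |M i j - A i j| < δ) →
      |M.det - A.det| < ε := by
  have hc : Continuous fun M : I → I → ℝ => (Matrix.of M).det :=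
    Continuous.matrix_det continuous_id
  obtain ⟨δ, hδ, h⟩ := Metric.continuous_iff.1 hc (fun i j => A i j) ε hε
  refine ⟨δ, hδ, fun M hM => ?_⟩
  have h2 : dist (fun i j => M i j) (fun i j => A i j) < δ := by
    rw [dist_pi_lt_iff hδ]
    intro i
    rw [dist_pi_lt_iff hδ]
    intro j
    rw [Real.dist_eq]
    exact hM i j
  have h3 := h _ h2
  rw [Real.dist_eq] at h3
  exact h3

section main

variable {K : Type*} [Field K] {d m : ℕ} {c : Fin (m + 1) → Fin (d + 1) → K}
  {a : Fin (m + 1) → K} {g : MvPolynomial (Fin (d + 1)) K} {w : Fin (m + 1) → ℕ}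

theorem lead_same_eq {T : Fin (d + 1) → Fin (m + 1)} (hT : Nbc c a T) :
    lead c a T T (hi c T) = 1 := by
  classical
  rw [lead_expand, Finset.sum_eq_single Finset.univ]
  · have h1 : (emat c a T fun l => if l ∈ Finset.univ then T l else hi c T l).det = 1 := by
      rw [Matrix.det_of_isUpperTriangular]
      · refine Finset.prod_eq_one fun i _ => ?_
        unfold emat mu
        simp only [Finset.mem_univ, if_true, Matrix.of_apply]
        rw [if_pos (be_T T hT.2.1 i), top_T hT.2.1]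
        unfold stp
        rw [if_pos le_rfl]
        simp
      · intro i j hij
        have hij' : j < i := hij
        unfold emat mu
        simp only [Finset.mem_univ, if_true, Matrix.of_apply]
        rw [if_pos (be_T T hT.2.1 i), top_T hT.2.1]
        unfold stp
        rw [if_neg (not_le.2 hij')]
        simp
    rw [h1, mul_one]
    simp
  · intro s _ hs
    by_contra hne
    have hs' := right_ne_zero_of_mul hne
    set e : Fin (d + 1) → Fin (m + 1) := fun l => if l ∈ s then T l else hi c T l with he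
    have h1 := hT.sum_le hs'
    obtain ⟨l0, hl0⟩ : ∃ l, l ∉ s := by
      by_contra hcon
      push Not at hcon
      exact hs (Finset.eq_univ_iff_forall.2 hcon)
    have hle : ∀ l, (T l : ℕ) ≤ e l := by
      intro l
      simp only [he]
      split_ifs
      · exact le_rfl
      · exact (hT.lt_hi l).le
    have h2 : ∑ l, (T l : ℕ) < ∑ l, (e l : ℕ) := by
      refine Finset.sum_lt_sum (fun l _ => hle l) ⟨l0, Finset.mem_univ l0, ?_⟩
      simp only [he, if_neg hl0]
      exact hT.lt_hi l0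
    omega
  · intro h
    exact absurd (Finset.mem_univ _) h

/-- the leading coefficient of the vertex `T` -/
noncomputable def coef (d : ℕ) (w0 : ℕ) : ℝ :=
  (2 * Real.pi) ^ d * (((w0 + 1 : ℕ) : ℝ)⁻¹ * ((w0 + 1 : ℕ) : ℝ) ^ d)

theorem coef_pos (d w0 : ℕ) : 0 < coef d w0 := by
  unfold coef
  have := Real.pi_pos
  positivity

theorem coef_eq {d : ℕ} (hd : 1 ≤ d) (w0 : ℕ) :
    coef d w0 = (2 * Real.pi) ^ d * ((w0 : ℝ) + 1) ^ (d - 1) := by
  obtain ⟨e, rfl⟩ : ∃ e, d = e + 1 := ⟨d - 1, by omega⟩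
  unfold coef
  have h : ((w0 + 1 : ℕ) : ℝ) ≠ 0 := by positivity
  rw [pow_succ' ((w0 + 1 : ℕ) : ℝ), inv_mul_cancel_left₀ h]
  push_cast
  rfl

theorem limit_tori (σ : K →+* ℂ) (hD : Distinct c a)
    (hg : ∀ T : Fin (d + 1) → Fin (m + 1), (cm c T).det ≠ 0 →
      MvPolynomial.eval (vtx c a T) g ≠ 0) {ε : ℝ} (hε : 0 < ε) :
    ∃ C : ℝ, 1 ≤ C ∧ ∀ lam : K, C ≤ ‖σ lam‖ →
      ∃ Γ : Ix c a → Torus (ARing lam g w c a) d,
        (∀ T θ x, (Γ T).e θ (acst lam g w c a x) = σ x) ∧
        |(Matrix.of fun T T' : Ix c a =>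
          (Γ T).reg (symb (aent lam g w c a T'.1))).det /
            (-Real.log ‖σ lam‖) ^ Fintype.card (Ix c a) -
          ∏ T : Ix c a, coef d (w (T.1 0))| < ε ∧
        (Matrix.of fun T T' : Ix c a =>
          (Γ T).reg (symb (aent lam g w c a T'.1))).det ≠ 0 := by
  classical
  have hex := fun T : Ix c a => by
    haveI : Nonempty (Ix c a) := ⟨T⟩
    exact exists_torus_exp (g := g) (w := w) (a := a) σ T.2.2.1 hD (hg T.1 T.2.2.1)
      (fun T' : Ix c a => kap c T'.1) (fun T' l => kap_ne T'.2.2.1 l) (fun T' => T'.1)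
      (fun T' => hi c T'.1)
  set M0 : Matrix (Ix c a) (Ix c a) ℝ := Matrix.of fun T T' =>
    coef d (w (T.1 0)) * lead c a T.1 T'.1 (hi c T'.1) with hM0
  have hM : M0.det = ∏ T : Ix c a, coef d (w (T.1 0)) := by
    have h1 : M0.det = (∏ T : Ix c a, coef d (w (T.1 0))) *
        (Matrix.of fun T T' : Ix c a => lead c a T.1 T'.1 (hi c T'.1)).det := by
      rw [← Matrix.det_mul_column]
      rfl
    rw [h1, det_of_tri (fun T : Ix c a => ∑ l, (T.1 l : ℕ)) _ (fun T T' h => ?_)]
    · rw [Finset.prod_eq_one (f := fun T : Ix c a => Matrix.of (fun T T' : Ix c a =>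
        lead c a T.1 T'.1 (hi c T'.1)) T T), mul_one]
      intro T _
      rw [Matrix.of_apply]
      exact lead_same_eq T.2
    · rw [Matrix.of_apply] at h
      rcases lead_other T.2 T'.2 h with h1 | h1
      · exact Or.inl (Subtype.ext h1)
      · exact Or.inr h1
  have hpos : 0 < M0.det := by
    rw [hM]
    exact Finset.prod_pos fun T _ => coef_pos _ _
  obtain ⟨δ, hδ, hdet⟩ := det_close M0 (lt_min hε hpos)
  choose Λ hΛ1 hΛ using fun T : Ix c a => hex T (δ / 2) (by linarith)
  set C : ℝ := ∑ T, |Λ T| + 2 with hC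
  have hsum : 0 ≤ ∑ T, |Λ T| := Finset.sum_nonneg fun J _ => abs_nonneg _
  have hΛC : ∀ T, Λ T ≤ C := by
    intro T
    have h1 := Finset.single_le_sum (f := fun T => |Λ T|) (fun T _ => abs_nonneg _)
      (Finset.mem_univ T)
    have h2 := le_abs_self (Λ T)
    have h3 : |Λ T| ≤ ∑ T, |Λ T| := h1
    linarith
  refine ⟨C, by linarith, fun lam hlam => ?_⟩
  choose Γ hΓ1 hΓ2 using fun T => hΛ T lam ((hΛC T).trans hlam)
  have hs : -Real.log ‖σ lam‖ ≠ 0 := by
    have : 0 < Real.log ‖σ lam‖ := Real.log_pos (by linarith)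
    linarith
  set s : ℝ := -Real.log ‖σ lam‖ with hsdef
  have h1 : |(Matrix.of fun T T' : Ix c a =>
      (Γ T).reg (symb (aent lam g w c a T'.1)) / s).det - M0.det| < min ε M0.det := by
    refine hdet _ fun T T' => ?_
    rw [hM0, Matrix.of_apply, Matrix.of_apply, mul_comm]
    exact lt_of_le_of_lt (hΓ2 T T') (show δ / 2 < δ by linarith)
  have h2 : (Matrix.of fun T T' : Ix c a =>
      (Γ T).reg (symb (aent lam g w c a T'.1))) =
      s • (Matrix.of fun T T' : Ix c a =>
        (Γ T).reg (symb (aent lam g w c a T'.1)) / s) := by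
    ext T T'
    rw [Matrix.smul_apply, Matrix.of_apply, Matrix.of_apply, smul_eq_mul]
    field_simp
  have hsn : s ^ Fintype.card (Ix c a) ≠ 0 := pow_ne_zero _ hs
  refine ⟨Γ, hΓ1, ?_, ?_⟩
  · rw [h2, Matrix.det_smul, mul_div_cancel_left₀ _ hsn, ← hM]
    exact h1.trans_le (min_le_left _ _)
  · rw [h2, Matrix.det_smul]
    refine mul_ne_zero hsn ?_
    intro h0
    rw [h0, zero_sub, abs_neg, abs_of_pos hpos] at h1
    exact absurd (h1.trans_le (min_le_right _ _)) (lt_irrefl _)

end main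

end Pool.Agent.V11133.BEI
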