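import Pool.Agent.Y797.GC.Reg
import Pool.Agent.V11133.BEI.Lim
set_option autoImplicit false

/-!
The loops of `Pool.Agent.Y797.GC.exists_torus` with the explicit leading coefficient `2 π`.
-/

namespace Pool.Agent.V11133.BEI

open Pool.Agent.Y797.GC

open Pool.Agent.TH826.MK

open Pool.Agent.TH577.UA (mmon mrow yrow det_yrow)

open Pool.Agent.TH826.SX (pairing_close)

open Polynomial (C X)

section main

variable {K : Type*} [Field K] {r p : ℕ} {A : Arr K r p}

theorem exists_loop (σ : K →+* ℂ) (hphi : Function.Injective A.phi)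
    (hrho : Function.Injective A.rho)
    (hg : ∀ i k, (A.g.eval (A.phi i)).eval (A.rho k) ≠ 0) (i0 : Fin (r + 1)) (k0 : Fin p) :
    ∀ ε : ℝ, 0 < ε →
    ∃ Λ : ℝ, 1 < Λ ∧ ∀ lam : K, Λ ≤ ‖σ lam‖ → ∃ Γ : Torus (A.Open lam) 1,
      (∀ θ x, Γ.e θ (A.toO lam (C (C x))) = σ x) ∧
      ∀ i k, |Γ.reg (symb ![A.uy lam i, A.ux lam k]) / (-Real.log ‖σ lam‖) -
          (if i = i0 ∧ k = k0 then 2 * Real.pi else 0)| ≤ ε := by
  classical
  -- the factorizations of the differences
  have hex : ∀ j, ∃ (a : ℕ) (ψ : Polynomial K), j ≠ i0 →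
      A.phi i0 - A.phi j = (X - C (A.rho k0)) ^ a * ψ ∧ ψ.eval (A.rho k0) ≠ 0 := by
    intro j
    by_cases hj : j = i0
    · exact ⟨0, 0, fun h => absurd hj h⟩
    · have hne : A.phi i0 - A.phi j ≠ 0 := sub_ne_zero.2 fun h => hj (hphi h).symm
      obtain ⟨ψ, h1, h2⟩ := Polynomial.exists_eq_pow_rootMultiplicity_mul_and_not_dvd
        (A.phi i0 - A.phi j) hne (A.rho k0)
      exact ⟨_, ψ, fun _ => ⟨h1, fun h => h2 (Polynomial.dvd_iff_isRoot.2 h)⟩⟩
  choose a ψ haψ using hex
  set N : ℕ := ∑ j, a j + 1 with hN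
  have haN : ∀ j, a j < N := fun j => by
    have := Finset.single_le_sum (f := a) (fun _ _ => Nat.zero_le _) (Finset.mem_univ j)
    omega
  set μy : Fin (r + 1) → Fin 2 → ℕ := fun j => if j = i0 then ![1, N] else ![0, a j] with hμy
  set μx : Fin p → Fin 2 → ℕ := fun k => if k = k0 then ![0, 1] else ![0, 0] with hμx
  -- the chart
  set Q : (Fin 1 → ℂ) × ℂ → ℂ × ℂ := fun u => (σ (A.rho k0) + u.1 0,
    (A.phi i0).eval₂ σ (σ (A.rho k0) + u.1 0) + u.2 * u.1 0 ^ N) with hQ
  have ht : ContDiff ℂ 2 fun u : (Fin 1 → ℂ) × ℂ => u.1 0 :=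
    (contDiff_apply ℂ ℂ (0 : Fin 1)).comp contDiff_fst
  have hx : ContDiff ℂ 2 fun u : (Fin 1 → ℂ) × ℂ => σ (A.rho k0) + u.1 0 :=
    contDiff_const.add ht
  have hQc : ContDiff ℂ 2 Q := hx.prodMk (((contDiff_eval₂ σ _).comp hx).add
    (contDiff_snd.mul (ht.pow _)))
  have hQ0 : Q 0 = (σ (A.rho k0), σ ((A.phi i0).eval (A.rho k0))) := by
    have h1 : ((0 : (Fin 1 → ℂ) × ℂ)).1 0 = 0 := rfl
    have h2 : ((0 : (Fin 1 → ℂ) × ℂ)).2 = 0 := rfl
    simp only [hQ, h1, h2, add_zero, zero_mul]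
    rw [Polynomial.eval₂_at_apply]
  -- the factors
  set H : Option (Fin (r + 1) ⊕ Fin p) → (Fin 1 → ℂ) × ℂ → ℂ := fun e u => match e with
    | none => evP σ (Q u) A.g
    | some (Sum.inl i) => evP σ (Q u) (A.ly i)
    | some (Sum.inr k) => evP σ (Q u) (A.lx k) with hH
  set h : Option (Fin (r + 1) ⊕ Fin p) → (Fin 1 → ℂ) × ℂ → ℂ := fun e u => match e with
    | none => evP σ (Q u) A.g
    | some (Sum.inl i) => if i = i0 then 1 else
        (ψ i).eval₂ σ (σ (A.rho k0) + u.1 0) + u.2 * u.1 0 ^ (N - a i)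
    | some (Sum.inr k) => if k = k0 then 1 else σ (A.rho k0) + u.1 0 - σ (A.rho k) with hh
  set μ : Option (Fin (r + 1) ⊕ Fin p) → Fin 2 → ℕ := fun e => match e with
    | none => ![0, 0]
    | some (Sum.inl i) => μy i
    | some (Sum.inr k) => μx k with hμ
  set nn : Option (Fin (r + 1) ⊕ Fin p) → ℕ := fun e => match e with
    | none => 1
    | some (Sum.inl i) => A.w i + 1
    | some (Sum.inr k) => A.nu k with hnn
  set q : ℕ := A.w i0 + 1 with hq
  have hq0 : 0 < q := Nat.succ_pos _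
  set NN : Fin 1 → ℕ := fun k => ∑ e, nn e * μ e k.succ with hNN
  have hfac : ∀ e u, H e u = mmon (μ e) u * h e u := by
    intro e u
    rw [mmon_one]
    match e with
    | none =>
      show evP σ (Q u) A.g = u.2 ^ 0 * u.1 0 ^ 0 * evP σ (Q u) A.g
      rw [pow_zero, pow_zero, one_mul, one_mul]
    | some (Sum.inl i) =>
      show evP σ (Q u) (A.ly i) = u.2 ^ (μy i 0) * u.1 0 ^ (μy i 1) * (if i = i0 then 1 else
        (ψ i).eval₂ σ (σ (A.rho k0) + u.1 0) + u.2 * u.1 0 ^ (N - a i))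
      rw [evP_ly]
      by_cases hi : i = i0
      · simp only [hμy, hi, if_true, hQ]
        show _ = u.2 ^ 1 * u.1 0 ^ N * 1
        ring
      · simp only [hμy, if_neg hi, hQ]
        show _ = u.2 ^ 0 * u.1 0 ^ (a i) * _
        have h1 : (A.phi i).eval₂ σ (σ (A.rho k0) + u.1 0) =
            (A.phi i0).eval₂ σ (σ (A.rho k0) + u.1 0) -
              u.1 0 ^ a i * (ψ i).eval₂ σ (σ (A.rho k0) + u.1 0) := by
          have h2 := congrArg (Polynomial.eval₂ σ (σ (A.rho k0) + u.1 0)) (haψ i hi).1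
          rw [Polynomial.eval₂_sub, Polynomial.eval₂_mul, Polynomial.eval₂_pow,
            Polynomial.eval₂_sub, Polynomial.eval₂_X, Polynomial.eval₂_C, add_sub_cancel_left] at h2
          rw [← h2]
          ring
        have h3 : u.1 0 ^ N = u.1 0 ^ a i * u.1 0 ^ (N - a i) := by
          rw [← pow_add]
          congr 1
          have := haN i
          omega
        rw [h1, h3]
        ring
    | some (Sum.inr k) =>
      show evP σ (Q u) (A.lx k) = u.2 ^ (μx k 0) * u.1 0 ^ (μx k 1) * (if k = k0 then 1 else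
        σ (A.rho k0) + u.1 0 - σ (A.rho k))
      rw [evP_lx]
      by_cases hk : k = k0
      · simp only [hμx, hk, if_true, hQ]
        show _ = u.2 ^ 0 * u.1 0 ^ 1 * 1
        ring
      · simp only [hμx, if_neg hk, hQ]
        show _ = u.2 ^ 0 * u.1 0 ^ 0 * _
        ring
  have hcd : ∀ e, ContDiff ℂ 2 (h e) := by
    intro e
    match e with
    | none => exact contDiff_evP' σ hQc _
    | some (Sum.inl i) =>
      show ContDiff ℂ 2 fun u : (Fin 1 → ℂ) × ℂ => if i = i0 then (1 : ℂ) else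
        (ψ i).eval₂ σ (σ (A.rho k0) + u.1 0) + u.2 * u.1 0 ^ (N - a i)
      by_cases hi : i = i0
      · simp only [if_pos hi]
        exact contDiff_const
      · simp only [if_neg hi]
        exact ((contDiff_eval₂ σ _).comp hx).add (contDiff_snd.mul (ht.pow _))
    | some (Sum.inr k) =>
      show ContDiff ℂ 2 fun u : (Fin 1 → ℂ) × ℂ => if k = k0 then (1 : ℂ) else
        σ (A.rho k0) + u.1 0 - σ (A.rho k)
      by_cases hk : k = k0
      · simp only [if_pos hk]
        exact contDiff_const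
      · simp only [if_neg hk]
        exact hx.sub contDiff_const
  have hne : ∀ e, h e 0 ≠ 0 := by
    have h1 : ((0 : (Fin 1 → ℂ) × ℂ)).1 0 = 0 := rfl
    have h2 : ((0 : (Fin 1 → ℂ) × ℂ)).2 = 0 := rfl
    intro e
    match e with
    | none =>
      show evP σ (Q 0) A.g ≠ 0
      rw [hQ0]
      have h3 : evP σ (σ (A.rho k0), σ ((A.phi i0).eval (A.rho k0))) A.g =
          σ ((A.g.eval (A.phi i0)).eval (A.rho k0)) := by
        have h4 : (evP σ (σ (A.rho k0), σ ((A.phi i0).eval (A.rho k0)))) =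
            (σ.comp (Polynomial.evalRingHom (A.rho k0))).comp
              (Polynomial.evalRingHom (A.phi i0)) := by
          refine Polynomial.ringHom_ext (fun b => ?_) ?_
          · rw [evP_C, RingHom.comp_apply, RingHom.comp_apply, Polynomial.coe_evalRingHom,
              Polynomial.coe_evalRingHom, Polynomial.eval_C]
            exact Polynomial.eval₂_at_apply σ _
          · rw [evP_X, RingHom.comp_apply, RingHom.comp_apply, Polynomial.coe_evalRingHom,
              Polynomial.coe_evalRingHom, Polynomial.eval_X]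
        rw [h4]
        rfl
      rw [h3]
      exact (map_ne_zero σ).2 (hg i0 k0)
    | some (Sum.inl i) =>
      show (if i = i0 then (1 : ℂ) else (ψ i).eval₂ σ (σ (A.rho k0) +
        ((0 : (Fin 1 → ℂ) × ℂ)).1 0) + ((0 : (Fin 1 → ℂ) × ℂ)).2 *
          ((0 : (Fin 1 → ℂ) × ℂ)).1 0 ^ (N - a i)) ≠ 0
      by_cases hi : i = i0
      · rw [if_pos hi]
        exact one_ne_zero
      · rw [if_neg hi, h1, h2, add_zero, zero_mul, add_zero, Polynomial.eval₂_at_apply]
        exact (map_ne_zero σ).2 (haψ i hi).2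
    | some (Sum.inr k) =>
      show (if k = k0 then (1 : ℂ) else σ (A.rho k0) + ((0 : (Fin 1 → ℂ) × ℂ)).1 0 -
        σ (A.rho k)) ≠ 0
      by_cases hk : k = k0
      · rw [if_pos hk]
        exact one_ne_zero
      · rw [if_neg hk, h1, add_zero, ← map_sub]
        exact (map_ne_zero σ).2 (sub_ne_zero.2 fun hh => hk (hrho hh).symm)
  have hsum : ∑ e, nn e * μ e 0 = q := by
    rw [Fintype.sum_option, Fintype.sum_sum_type]
    show 1 * 0 + (∑ i, (A.w i + 1) * μy i 0 + ∑ k, A.nu k * μx k 0) = q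
    have e1 : ∀ i, (A.w i + 1) * μy i 0 = if i = i0 then q else 0 := by
      intro i
      by_cases hi : i = i0
      · simp only [hμy, hi, if_true]
        show (A.w i0 + 1) * 1 = q
        rw [mul_one]
      · simp only [hμy, if_neg hi]
        show (A.w i + 1) * 0 = 0
        rw [mul_zero]
    have e2 : ∀ k, A.nu k * μx k 0 = 0 := by
      intro k
      by_cases hk : k = k0
      · simp only [hμx, hk, if_true]
        show A.nu k0 * 0 = 0
        rw [mul_zero]
      · simp only [hμx, if_neg hk]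
        show A.nu k * 0 = 0
        rw [mul_zero]
    simp only [e1, e2]
    simp
  have hpi := Real.pi_pos
  intro ε hε
  have hD : 2 * Real.pi = (2 * Real.pi) ^ 1 * (Matrix.of (yrow q NN)).det := by
    have hq1 : (q : ℝ) ≠ 0 := by exact_mod_cast hq0.ne'
    rw [Pool.Agent.V11133.BEI.det_yrow_eq, pow_one, pow_one, inv_mul_cancel₀ hq1, mul_one]
  rw [hD]
  choose δ hδ hclose using fun ik : Fin (r + 1) × Fin p =>
    pairing_close (Matrix.of ![mrow q NN (μy ik.1), mrow q NN (μx ik.2)]) hε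
  obtain ⟨m0, -, hm0⟩ := Finset.exists_min_image Finset.univ δ
    ⟨(i0, k0), Finset.mem_univ _⟩
  set δ0 : ℝ := δ m0 / 2 with hδ0
  have hδ0pos : 0 < δ0 := by
    have := hδ m0
    rw [hδ0]
    linarith
  have hδle : ∀ ik, δ0 < δ ik := by
    intro ik
    have h1 := hm0 ik (Finset.mem_univ ik)
    have h2 := hδ m0
    rw [hδ0]
    linarith
  obtain ⟨η0, hη0, hX⟩ := exists_points (q := q) (N := NN) hfac hcd hne hsum hq0
    (fun k => rfl) hδ0pos
  have hinvpos : 0 < 1 / η0 := by positivity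
  refine ⟨1 / η0 + 2, by linarith, fun lam hlam => ?_⟩
  have hln : 0 < ‖σ lam‖ := by linarith
  have hl0 : σ lam ≠ 0 := norm_pos_iff.1 hln
  have hη : ‖(σ lam)⁻¹‖ < η0 := by
    rw [norm_inv, inv_lt_comm₀ hln hη0, ← one_div]
    linarith
  obtain ⟨hlog, U, hUc, hUp, hUe, hUg, hUest⟩ := hX _ (inv_ne_zero hl0) hη
  have hlogeq : Real.log ‖(σ lam)⁻¹‖ = -Real.log ‖σ lam‖ := by rw [norm_inv, Real.log_inv]
  rw [hlogeq] at hlog hUest
  set P : (Fin 1 → ℝ) → ℂ × ℂ := fun θ => Q (U θ) with hP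
  have hPc : ContDiff ℝ 2 P := (hQc.restrict_scalars ℝ).comp hUc
  have hPp : ∀ θ i, P (θ + Pi.single i 1) = P θ := fun θ i => by
    simp only [hP, hUp]
  have hPt : ∀ θ, Pt A σ lam (P θ) := fun θ => by
    refine ⟨?_, ?_⟩
    · have h1 := hUe θ
      rw [Fintype.prod_option, Fintype.prod_sum_type] at h1
      have h2 : evP σ (P θ) A.g ^ 1 * ((∏ i, evP σ (P θ) (A.ly i) ^ (A.w i + 1)) *
          ∏ k, evP σ (P θ) (A.lx k) ^ A.nu k) = (σ lam)⁻¹ := h1
      rw [Arr.eqn_def, map_sub, map_mul, map_mul, map_mul, map_prod, map_prod, map_one]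
      simp only [map_pow]
      rw [pow_one] at h2
      rw [h2, evP_C, Polynomial.eval₂_C, mul_inv_cancel₀ hl0, sub_self]
    · unfold Arr.allX
      rw [map_prod]
      exact Finset.prod_ne_zero_iff.2 fun k _ => (hUg (some (Sum.inr k))).ne_zero θ
  set Γ := mkT P hPc hPp hPt with hΓ
  have hfy : ∀ i, Γ.fn (A.uy lam i : A.Open lam) = fun θ => H (some (Sum.inl i)) (U θ) := by
    intro i
    funext θ
    exact evO_toO (hPt θ) (A.ly i)
  have hfx : ∀ k, Γ.fn (A.ux lam k : A.Open lam) = fun θ => H (some (Sum.inr k)) (U θ) := by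
    intro k
    funext θ
    exact evO_toO (hPt θ) (A.lx k)
  refine ⟨Γ, fun θ x => ?_, fun i k => ?_⟩
  · refine (evO_toO (hPt θ) _).trans ?_
    rw [evP_C, Polynomial.eval₂_C]
  have hdet : (Matrix.of ![mrow q NN (μy i), mrow q NN (μx k)]).det =
      (if i = i0 ∧ k = k0 then 1 else 0) * (Matrix.of (yrow q NN)).det := by
    have h1 : (Matrix.of ![mrow q NN (μy i), mrow q NN (μx k)]) =
        (Matrix.of ![fun j => (μy i j : ℝ), fun j => (μx k j : ℝ)]) *
          Matrix.of (yrow q NN) := by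
      ext l j
      rw [Matrix.mul_apply]
      fin_cases l <;> rfl
    rw [h1, Matrix.det_mul]
    congr 1
    rw [Matrix.det_fin_two]
    show (μy i 0 : ℝ) * (μx k 1 : ℝ) - (μy i 1 : ℝ) * (μx k 0 : ℝ) = _
    have e1 : μy i 0 = if i = i0 then 1 else 0 := by
      by_cases hi : i = i0
      · simp only [hμy, hi, if_true]
        rfl
      · simp only [hμy, if_neg hi]
        rfl
    have e2 : μx k 1 = if k = k0 then 1 else 0 := by
      by_cases hk : k = k0
      · simp only [hμx, hk, if_true]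
        rfl
      · simp only [hμx, if_neg hk]
        rfl
    have e3 : μx k 0 = 0 := by
      by_cases hk : k = k0
      · simp only [hμx, hk, if_true]
        rfl
      · simp only [hμx, if_neg hk]
        rfl
    rw [e1, e2, e3]
    by_cases hi : i = i0
    · by_cases hk : k = k0
      · simp [hi, hk]
      · simp [hi, hk]
    · simp [hi]
  have hgoal := hclose (i, k) (fun l => Γ.fn (![A.uy lam i, A.ux lam k] l : A.Open lam))
    (-Real.log ‖σ lam‖) hlog.ne (fun l => Γ.good _) (fun l θ => ?_) (fun l j θ => ?_)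
  · rw [Torus.reg_symb]
    show |pairing (fun l => Γ.fn (![A.uy lam i, A.ux lam k] l : A.Open lam)) /
      (-Real.log ‖σ lam‖) - _| ≤ ε
    rw [hdet] at hgoal
    refine le_trans (le_of_eq ?_) hgoal
    congr 2
    split_ifs <;> ring
  · refine lt_of_le_of_lt ?_ (hδle (i, k))
    fin_cases l
    · show |Real.log ‖Γ.fn (A.uy lam i : A.Open lam) θ‖ / (-Real.log ‖σ lam‖) -
        mrow q NN (μy i) 0| ≤ δ0
      rw [hfy]
      exact (hUest (some (Sum.inl i)) θ).1
    · show |Real.log ‖Γ.fn (A.ux lam k : A.Open lam) θ‖ / (-Real.log ‖σ lam‖) -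
        mrow q NN (μx k) 0| ≤ δ0
      rw [hfx]
      exact (hUest (some (Sum.inr k)) θ).1
  · refine lt_of_le_of_lt ?_ (hδle (i, k))
    fin_cases l
    · show ‖lw (Γ.fn (A.uy lam i : A.Open lam)) j θ - 2 * Real.pi * Complex.I *
        mrow q NN (μy i) j.succ‖ ≤ δ0
      rw [hfy]
      exact (hUest (some (Sum.inl i)) θ).2 j
    · show ‖lw (Γ.fn (A.ux lam k : A.Open lam)) j θ - 2 * Real.pi * Complex.I *
        mrow q NN (μx k) j.succ‖ ≤ δ0
      rw [hfx]
      exact (hUest (some (Sum.inr k)) θ).2 j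

end main

end Pool.Agent.V11133.BEI
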