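import Pool.Agent.TH577.UA.Final
set_option autoImplicit false

/-!
The limit formula for the regulators on the hypersurfaces `λ g ∏_e L_e ^ (w_e + 1) = 1`: the tori of
`Pool.Agent.TH577.UA.exists_torus` with the explicit leading coefficients.
-/

namespace Pool.Agent.V11133.BEI

open Pool.Agent.TH577.UA

open Pool.Agent.TH826.MK

open Pool.Agent.TH826.GA hiding exists_points exists_torus exists_tori

open Pool.Agent.TH826.SX (pairing_close)

section main

variable {K : Type*} [Field K] {d m : ℕ} {c : Fin (m + 1) → Fin (d + 1) → K}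
  {a : Fin (m + 1) → K} {g : MvPolynomial (Fin (d + 1)) K} {w : Fin (m + 1) → ℕ}

theorem det_yrow_eq (q : ℕ) (N : Fin d → ℕ) :
    (Matrix.of (yrow q N)).det = (q : ℝ)⁻¹ * (q : ℝ) ^ d := by
  rw [Matrix.det_of_isUpperTriangular]
  · rw [Fin.prod_univ_succ]
    congr 1
    simp [yrow]
  · intro i j hij
    have hij' : j < i := hij
    revert hij'
    refine Fin.cases (fun h => absurd h (Fin.not_lt_zero j)) (fun k h => ?_) i
    have h1 : j ≠ k.succ := h.ne
    simp [yrow, Pi.single_eq_of_ne h1]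

theorem exists_torus_exp (σ : K →+* ℂ) {T : Fin (d + 1) → Fin (m + 1)} (hT : (cm c T).det ≠ 0)
    (hD : Distinct c a) (hg : MvPolynomial.eval (vtx c a T) g ≠ 0)
    {I : Type*} [Fintype I] [Nonempty I] (κ : I → Fin (d + 1) → K) (hκ : ∀ i l, κ i l ≠ 0)
    (p q : I → Fin (d + 1) → Fin (m + 1)) :
    ∀ ε : ℝ, 0 < ε →
    ∃ Λ : ℝ, 1 < Λ ∧ ∀ lam : K, Λ ≤ ‖σ lam‖ → ∃ Γ : Torus (ARing lam g w c a) d,
      (∀ θ x, Γ.e θ (acst lam g w c a x) = σ x) ∧
      ∀ i, |Γ.reg (symb (pent lam g w c a (κ i) (p i) (q i))) / (-Real.log ‖σ lam‖) -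
          lead c a T (p i) (q i) * ((2 * Real.pi) ^ d * (((w (T 0) + 1 : ℕ) : ℝ)⁻¹ *
            ((w (T 0) + 1 : ℕ) : ℝ) ^ d))| ≤ ε := by
  classical
  -- the chart
  choose h hfac hcd hne using fun e => exists_fac (a := a) σ hT hD e
  set N : Fin d → ℕ := fun k => ∑ e : (e : Fin (m + 1)) × Fin (w e + 1),
    mu c a T e.1 k.succ with hN
  set r : ℕ := w (T 0) + 1 with hr
  have hr0 : 0 < r := Nat.succ_pos _
  have hmu0 : ∑ e : (e : Fin (m + 1)) × Fin (w e + 1), mu c a T e.1 0 = r := by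
    rw [Fintype.sum_sigma]
    simp only [Finset.sum_const, Finset.card_univ, Fintype.card_fin, smul_eq_mul]
    rw [Finset.sum_eq_single (T 0)]
    · unfold mu
      rw [if_pos (be_T T hT 0), top_T hT]
      unfold stp
      rw [if_pos le_rfl, mul_one]
    · intro e _ he
      unfold mu
      split_ifs with hbe
      · unfold stp
        rw [if_neg, mul_zero]
        intro h1
        exact he (eq_T_zero hT hD hbe (Fin.le_zero_iff.1 h1))
      · exact mul_zero _
    · intro h
      exact absurd (Finset.mem_univ _) h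
  intro ε hε
  rw [← det_yrow_eq r N]
  choose δ hδ hclose using fun i : I =>
    pairing_close (Matrix.of fun l j => mrow r N (mu c a T (p i l)) j -
      mrow r N (mu c a T (q i l)) j) hε
  obtain ⟨i0, -, hi0⟩ := Finset.exists_min_image Finset.univ δ
    ⟨Classical.arbitrary I, Finset.mem_univ _⟩
  set δ0 : ℝ := δ i0 / 5 with hδ0
  have hδ0pos : 0 < δ0 := by
    have := hδ i0
    rw [hδ0]
    linarith
  have hδle : ∀ i, 4 * δ0 < δ i := by
    intro i
    have h1 := hi0 i (Finset.mem_univ i)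
    have h2 := hδ i0
    rw [hδ0]
    linarith
  obtain ⟨η0, hη0, hX⟩ := exists_points (q := r) (N := N)
    (H := fun (e : Option ((e : Fin (m + 1)) × Fin (w e + 1))) y => Option.elim e
      (MvPolynomial.eval₂ σ (xv σ c a T (psi y)) g) fun e => lc σ c a (xv σ c a T (psi y)) e.1)
    (h := fun (e : Option ((e : Fin (m + 1)) × Fin (w e + 1))) y => Option.elim e
      (MvPolynomial.eval₂ σ (xv σ c a T (psi y)) g) fun e => h e.1 y)
    (μ := fun e => Option.elim e 0 fun e => mu c a T e.1)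
    (fun e y => by
      cases e with
      | none =>
        show _ = mmon 0 y * _
        rw [mmon_zero_eq (μ := 0) fun j => rfl, one_mul]
        rfl
      | some e => exact hfac e.1 y)
    (fun e => by
      cases e with
      | none => exact (contDiff_eval σ g T).comp contDiff_psi
      | some e => exact hcd e.1)
    (fun e => by
      cases e with
      | none =>
        show MvPolynomial.eval₂ σ (xv σ c a T (psi 0)) g ≠ 0
        rw [psi_zero, xv_zero]
        have h1 := MvPolynomial.eval₂_comp_left σ (RingHom.id K) (vtx c a T) g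
        rw [RingHom.comp_id] at h1
        have h2 : MvPolynomial.eval₂ σ (fun j => σ (vtx c a T j)) g =
            σ (MvPolynomial.eval (vtx c a T) g) := h1.symm
        rw [h2]
        exact (map_ne_zero σ).2 hg
      | some e => exact hne e.1)
    (by
      rw [Fintype.sum_option]
      simp only [Option.elim]
      rw [hmu0]
      exact zero_add _) hr0
    (fun k => by
      rw [Fintype.sum_option]
      simp only [Option.elim]
      rw [hN]
      exact zero_add _) hδ0pos
  set G : ℝ := ∑ i : I, ∑ l, |Real.log ‖σ (κ i l)‖| with hG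
  have hG0 : 0 ≤ G := Finset.sum_nonneg fun S _ => Finset.sum_nonneg fun i _ => abs_nonneg _
  have hGS : ∀ i l, |Real.log ‖σ (κ i l)‖| ≤ G := fun i l =>
    (Finset.single_le_sum (f := fun l => |Real.log ‖σ (κ i l)‖|)
      (fun i _ => abs_nonneg _) (Finset.mem_univ l)).trans
    (Finset.single_le_sum (f := fun i => ∑ l, |Real.log ‖σ (κ i l)‖|)
      (fun S _ => Finset.sum_nonneg fun i _ => abs_nonneg _) (Finset.mem_univ i))
  have hinvpos : 0 < 1 / η0 := by positivity
  refine ⟨1 / η0 + 2 + Real.exp (G / δ0), by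
    have := Real.exp_pos (G / δ0)
    linarith, fun lam hlam => ?_⟩
  have hexp := Real.exp_pos (G / δ0)
  have hln : 0 < ‖σ lam‖ := by linarith
  have hl0 : σ lam ≠ 0 := norm_pos_iff.1 hln
  have hη : ‖(σ lam)⁻¹‖ < η0 := by
    rw [norm_inv, inv_lt_comm₀ hln hη0, ← one_div]
    linarith
  obtain ⟨hlog, U, hUc, hUp, hUe, hUg, hUest⟩ := hX _ (inv_ne_zero hl0) hη
  have hlogeq : Real.log ‖(σ lam)⁻¹‖ = -Real.log ‖σ lam‖ := by rw [norm_inv, Real.log_inv]
  rw [hlogeq] at hlog hUest
  have hbig : G ≤ δ0 * |(-Real.log ‖σ lam‖)| := by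
    have h1 : G / δ0 ≤ Real.log ‖σ lam‖ := by
      rw [Real.le_log_iff_exp_le hln]
      linarith
    rw [div_le_iff₀ hδ0pos] at h1
    rw [abs_of_neg hlog, neg_neg]
    linarith
  set s : ℝ := -Real.log ‖σ lam‖ with hs
  have hs0 : s ≠ 0 := hlog.ne
  have hspos : 0 < |s| := abs_pos.2 hs0
  have hgs : ∀ i l, |Real.log ‖σ (κ i l)‖ / s| ≤ δ0 := by
    intro i l
    rw [abs_div, div_le_iff₀ hspos]
    exact (hGS i l).trans hbig
  set X : (Fin d → ℝ) → (Fin (d + 1) → ℂ) := fun θ => xv σ c a T (psi (U θ)) with hXdef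
  have hXc : ContDiff ℝ 2 X :=
    (((contDiff_xv σ T).comp contDiff_psi).restrict_scalars ℝ).comp hUc
  have hXp : ∀ θ i, X (θ + Pi.single i 1) = X θ := fun θ i => by
    simp only [hXdef, hUp]
  have hPt : ∀ θ, PtA σ lam g w c a (X θ) := fun θ => by
    have h1 := hUe θ
    rw [Fintype.prod_option] at h1
    have h3 : ∏ e : (e : Fin (m + 1)) × Fin (w e + 1), lc σ c a (X θ) e.1 =
        ∏ e, lc σ c a (X θ) e ^ (w e + 1) := by
      rw [Fintype.prod_sigma]
      simp only [Finset.prod_const, Finset.card_univ, Fintype.card_fin]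
    have h2 : MvPolynomial.eval₂ σ (X θ) g * ∏ e, lc σ c a (X θ) e ^ (w e + 1) =
        (σ lam)⁻¹ := by
      rw [← h3]
      exact h1
    unfold PtA
    rw [h2]
    exact mul_inv_cancel₀ hl0
  have hgoodL : ∀ e, Good fun θ => lc σ c a (X θ) e := fun e => hUg (some ⟨e, 0⟩)
  have hest : ∀ e θ, |Real.log ‖lc σ c a (X θ) e‖ / s - mrow r N (mu c a T e) 0| ≤ δ0 ∧
      ∀ j, ‖lw (fun θ => lc σ c a (X θ) e) j θ - 2 * Real.pi * Complex.I *
        mrow r N (mu c a T e) j.succ‖ ≤ δ0 := fun e θ => hUest (some ⟨e, 0⟩) θ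
  refine ⟨mkA X hXc hXp hPt, fun θ x => evA_acst (hPt θ) x, fun i => ?_⟩
  have hfin : lead c a T (p i) (q i) * ((2 * Real.pi) ^ d * (Matrix.of (yrow r N)).det) =
      (2 * Real.pi) ^ d * (Matrix.of fun l j => mrow r N (mu c a T (p i l)) j -
        mrow r N (mu c a T (q i l)) j).det := by
    rw [lead_eq]
    ring
  rw [Torus.reg_symb, hfin]
  set Γ := mkA X hXc hXp hPt with hΓ
  have hκc : ∀ l, σ (κ i l) ≠ 0 := fun l => (map_ne_zero σ).2 (hκ i l)
  have hau : ∀ e, Γ.fn (au lam g w c a e : ARing lam g w c a) = fun θ => lc σ c a (X θ) e := fun e =>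
    mkA_au X hXc hXp hPt e
  have hgoodE : ∀ l, Good (Γ.fn (pent lam g w c a (κ i) (p i) (q i) l : ARing lam g w c a)) :=
    fun l => Γ.good _
  have hmul : ∀ l : Fin (d + 1), (fun θ =>
      Γ.fn (pent lam g w c a (κ i) (p i) (q i) l : ARing lam g w c a) θ *
      lc σ c a (X θ) (q i l)) = fun θ => σ (κ i l) * lc σ c a (X θ) (p i l) := by
    intro l
    funext θ
    have h1 := congrFun (hau (q i l)) θ
    have h2 := congrFun (hau (p i l)) θ
    have h3 : Γ.fn (acst lam g w c a (ku (κ i l) : K)) θ = σ (κ i l) := by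
      rw [coe_ku (hκ i l)]
      exact evA_acst (hPt θ) _
    rw [← h1, ← h2, ← h3]
    unfold Torus.fn
    rw [← map_mul, ← map_mul]
    congr 1
    unfold pent
    rw [← Units.val_mul, mul_assoc, div_mul_cancel]
    rfl
  refine hclose i _ _ hs0 hgoodE (fun l θ => ?_) (fun l j θ => ?_)
  · change |Real.log ‖Γ.fn (pent lam g w c a (κ i) (p i) (q i) l : ARing lam g w c a) θ‖ / s -
      (mrow r N (mu c a T (p i l)) 0 - mrow r N (mu c a T (q i l)) 0)| < δ i
    have h1 := (hest (p i l) θ).1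
    have h2 := (hest (q i l) θ).1
    have h0 := hgs i l
    have h3 : Real.log ‖Γ.fn (pent lam g w c a (κ i) (p i) (q i) l : ARing lam g w c a) θ *
        lc σ c a (X θ) (q i l)‖ = Real.log ‖σ (κ i l) * lc σ c a (X θ) (p i l)‖ :=
      congrArg (fun z : ℂ => Real.log ‖z‖) (congrFun (hmul l) θ)
    rw [norm_mul, norm_mul, Real.log_mul (norm_ne_zero_iff.2 ((hgoodE l).ne_zero θ))
      (norm_ne_zero_iff.2 ((hgoodL _).ne_zero θ)), Real.log_mul (norm_ne_zero_iff.2 (hκc l))
      (norm_ne_zero_iff.2 ((hgoodL _).ne_zero θ))] at h3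
    have h4 : Real.log ‖Γ.fn (pent lam g w c a (κ i) (p i) (q i) l : ARing lam g w c a) θ‖ =
        Real.log ‖σ (κ i l)‖ + Real.log ‖lc σ c a (X θ) (p i l)‖ -
        Real.log ‖lc σ c a (X θ) (q i l)‖ := by
      linarith
    rw [h4, sub_div, add_div]
    refine lt_of_le_of_lt ?_ (hδle i)
    have h5 := abs_le.1 h1
    have h6 := abs_le.1 h2
    have h7 := abs_le.1 h0
    rw [abs_le]
    constructor <;> linarith [h5.1, h5.2, h6.1, h6.2, h7.1, h7.2]
  · change ‖lw (Γ.fn (pent lam g w c a (κ i) (p i) (q i) l : ARing lam g w c a)) j θ -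
      2 * Real.pi * Complex.I *
        ((mrow r N (mu c a T (p i l)) j.succ - mrow r N (mu c a T (q i l)) j.succ : ℝ) : ℂ)‖ < δ i
    have h1 := (hest (p i l) θ).2 j
    have h2 := (hest (q i l) θ).2 j
    have h3 := lw_mul (hgoodE l) (hgoodL (q i l)) j θ
    rw [hmul l] at h3
    have h5 := lw_mul (good_const (d := d) (hκc l)) (hgoodL (p i l)) j θ
    rw [lw_const, zero_add] at h5
    have h4 : lw (Γ.fn (pent lam g w c a (κ i) (p i) (q i) l : ARing lam g w c a)) j θ =
        lw (fun θ => lc σ c a (X θ) (p i l)) j θ -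
        lw (fun θ => lc σ c a (X θ) (q i l)) j θ := by
      rw [eq_sub_iff_add_eq, ← h5]
      exact h3.symm
    rw [h4]
    refine lt_of_le_of_lt ?_ (hδle i)
    have e2 : lw (fun θ => lc σ c a (X θ) (p i l)) j θ -
        lw (fun θ => lc σ c a (X θ) (q i l)) j θ - 2 * Real.pi * Complex.I *
          ((mrow r N (mu c a T (p i l)) j.succ - mrow r N (mu c a T (q i l)) j.succ : ℝ) : ℂ) =
        (lw (fun θ => lc σ c a (X θ) (p i l)) j θ -
          2 * Real.pi * Complex.I * mrow r N (mu c a T (p i l)) j.succ) -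
        (lw (fun θ => lc σ c a (X θ) (q i l)) j θ -
          2 * Real.pi * Complex.I * mrow r N (mu c a T (q i l)) j.succ) := by
      push_cast
      ring
    rw [e2]
    refine (norm_sub_le _ _).trans ?_
    linarith

end main

end Pool.Agent.V11133.BEI
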